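import Mathlib
import Pool.Agent.H666R2.DefPred

/-!
No torsion-free relatively free group of infinite rank is `ℵ₁`-homogeneous.
-/

set_option autoImplicit false

namespace Pool.Agent.Results.MP_735cdd_lc.NotAlephOneHomogeneous

open FirstOrder FirstOrder.Language Cardinal Pool.Agent.H666R2

universe u

/-- The symbols of the language of groups. -/
inductive GroupFn : ℕ → Type
  | mul : GroupFn 2
  | inv : GroupFn 1
  | one : GroupFn 0

/-- The language of groups, with multiplication, inversion and `1`. -/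
def grp : FirstOrder.Language.{0, 0} := ⟨GroupFn, fun _ => Empty⟩

/-- A group as a structure for the language of groups. -/
@[reducible] def grpStructure (G : Type u) [Group G] : grp.Structure G where
  funMap := fun {_} f => match f with
    | GroupFn.mul => fun v => v 0 * v 1
    | GroupFn.inv => fun v => (v 0)⁻¹
    | GroupFn.one => fun _ => 1
  RelMap := fun {_} r _ => Empty.elim r

/-- `X` is a free basis of the relatively free group `G`: it generates `G` and every map from `X`
to `G` extends to an endomorphism of `G`. -/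
def IsFreeBasis {G : Type u} [Group G] (X : Set G) : Prop :=
  Subgroup.closure X = ⊤ ∧ ∀ f : X → G, ∃ φ : G →* G, ∀ x : X, φ x = f x

/-- The partial map `f` with domain `A` is elementary: it preserves, in both directions, the truth
of all first-order formulas of the language of groups at tuples of elements of `A`. -/
def IsElementary {G : Type u} [Group G] (A : Set G) (f : A → G) : Prop :=
  ∀ (n : ℕ) (φ : grp.Formula (Fin n)) (a : Fin n → A),
    @Formula.Realize grp G (grpStructure G) (Fin n) φ (fun i => (a i : G)) ↔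
      @Formula.Realize grp G (grpStructure G) (Fin n) φ (fun i => f (a i))

/-- `G` is `κ`-homogeneous: every elementary map `f` whose domain `A` has fewer than `κ` elements
extends, for each `c` in `G`, to an elementary map with domain `A ∪ {c}`. -/
def IsHomogeneous (κ : Cardinal.{u}) (G : Type u) [Group G] : Prop :=
  ∀ (A : Set G) (f : A → G), #A < κ → IsElementary A f → ∀ c : G,
    ∃ g : ↥(A ∪ {c}) → G, (∀ a : A, g ⟨a, Or.inl a.2⟩ = f a) ∧ IsElementary (A ∪ {c}) g

section

variable {G : Type u} [Group G]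

theorem realize_aut (σ : G ≃* G) {α : Type*} (φ : grp.Formula α) (v : α → G) :
    @Formula.Realize grp G (grpStructure G) α φ (fun i => σ (v i)) ↔
      @Formula.Realize grp G (grpStructure G) α φ v := by
  let _ := grpStructure G
  let e : grp.Equiv G G :=
    { toEquiv := σ.toEquiv
      map_fun' := by
        intro n f x
        cases f with
        | mul => exact map_mul σ _ _
        | inv => exact map_inv σ _
        | one => exact map_one σ
      map_rel' := by
        intro n r x
        exact Empty.elim r }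
  exact StrongHomClass.realize_formula e φ

theorem hom_ext_basis {X : Set G} (hX : Subgroup.closure X = ⊤) {φ ψ : G →* G}
    (h : ∀ x ∈ X, φ x = ψ x) : φ = ψ := by
  refine MonoidHom.eq_of_eqOn_dense hX ?_
  intro x hx
  exact h x hx

/-- elementary transvections -/
theorem transvection {X : Set G} (hX : IsFreeBasis X) {a b : G} (ha : a ∈ X) (m : ℤ) : ∃ φ : G →* G, φ a = a * b ^ m ∧ ∀ x ∈ X, x ≠ a → φ x = x := by
  classical
  obtain ⟨φ, hφ⟩ := hX.2 (fun x => if (x : G) = a then a * b ^ m else x)
  refine ⟨φ, ?_, ?_⟩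
  · have := hφ ⟨a, ha⟩
    simpa using this
  · intro x hx hxa
    have := hφ ⟨x, hx⟩
    simpa [hxa] using this

theorem transvection_equiv {X : Set G} (hX : IsFreeBasis X) {a b : G} (ha : a ∈ X) (hb : b ∈ X)
    (hab : a ≠ b) : ∃ σ : G ≃* G, σ a = a * b ^ (-2 : ℤ) ∧ ∀ x ∈ X, x ≠ a → σ x = x := by
  obtain ⟨φ, h1, h2⟩ := transvection (b := b) hX ha (-2)
  obtain ⟨ψ, h3, h4⟩ := transvection (b := b) hX ha 2
  have hc1 : φ.comp ψ = MonoidHom.id G := by
    apply hom_ext_basis hX.1
    intro x hx
    by_cases hxa : x = a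
    · subst hxa
      simp only [MonoidHom.comp_apply, h3, map_mul, map_zpow, h1, h2 b hb (Ne.symm hab),
        MonoidHom.id_apply]
      group
    · simp only [MonoidHom.comp_apply, h4 x hx hxa, h2 x hx hxa, MonoidHom.id_apply]
  have hc2 : ψ.comp φ = MonoidHom.id G := by
    apply hom_ext_basis hX.1
    intro x hx
    by_cases hxa : x = a
    · subst hxa
      simp only [MonoidHom.comp_apply, h3, map_mul, map_zpow, h1, h4 b hb (Ne.symm hab),
        MonoidHom.id_apply]
      group
    · simp only [MonoidHom.comp_apply, h4 x hx hxa, h2 x hx hxa, MonoidHom.id_apply]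
  exact ⟨MonoidHom.toMulEquiv φ ψ hc2 hc1, h1, h2⟩

/-- The element `v 0 (v 1 (⋯ (v (k-1) z²)² ⋯)²)²`. -/
def nest (v : ℕ → G) (z : G) : ℕ → G
  | 0 => z
  | k + 1 => v 0 * nest (fun i => v (i + 1)) z k ^ 2

theorem exists_aut {X : Set G} (hX : IsFreeBasis X) {x : ℕ → G} (hx : ∀ i, x i ∈ X)
    (hinj : Function.Injective x) (k : ℕ) :
    ∃ σ : G ≃* G, (∀ i < k, σ (x i) = x i * x (i + 1) ^ (-2 : ℤ)) ∧ ∀ i, k ≤ i → σ (x i) = x i := by
  induction k with
  | zero => exact ⟨MulEquiv.refl G, fun i hi => absurd hi (Nat.not_lt_zero i), fun i _ => rfl⟩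
  | succ k ih =>
    obtain ⟨σ, h1, h2⟩ := ih
    obtain ⟨τ, h3, h4⟩ := transvection_equiv hX (hx k) (hx (k + 1))
      (fun h => absurd (hinj h) (by omega))
    refine ⟨τ.trans σ, ?_, ?_⟩
    · intro i hi
      rcases Nat.lt_or_ge i k with h | h
      · rw [MulEquiv.trans_apply, h4 _ (hx i) (fun h' => absurd (hinj h') (by omega)), h1 i h]
      · have hik : i = k := by omega
        subst hik
        rw [MulEquiv.trans_apply, h3, map_mul, map_zpow, h2 i le_rfl, h2 (i + 1) (by omega)]
    · intro i hi
      rw [MulEquiv.trans_apply, h4 _ (hx i) (fun h' => absurd (hinj h') (by omega)),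
        h2 i (by omega)]

theorem nest_eq (x y : ℕ → G) (hy : ∀ i, y i = x i * x (i + 1) ^ (-2 : ℤ)) (k : ℕ) :
    x 0 = nest y (x k) k := by
  induction k generalizing x y with
  | zero => rfl
  | succ k ih =>
    have h1 := ih (fun i => x (i + 1)) (fun i => y (i + 1)) (fun i => hy (i + 1))
    show x 0 = y 0 * nest (fun i => y (i + 1)) (x (k + 1)) k ^ 2
    rw [← h1, hy 0]
    simp only [zero_add]
    group

/-- value of `nest` under a homomorphism that kills all `v i` except one, whose image commutes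
with everything in the image -/
theorem nest_map {a : G} (π : G →* G) (hπ : ∀ g, ∃ n : ℤ, π g = a ^ n) (v : ℕ → G) (j : ℕ)
    (hj : π (v j) = a) (hne : ∀ i, i ≠ j → π (v i) = 1) (z : G) (k : ℕ) (hjk : j < k) :
    ∃ n : ℤ, π (nest v z k) = a ^ ((2 : ℤ) ^ j + 2 ^ k * n) := by
  have key : ∀ (k : ℕ) (v : ℕ → G), (∀ i, π (v i) = 1) →
      ∃ n : ℤ, π (nest v z k) = a ^ ((2 : ℤ) ^ k * n) := by
    intro k
    induction k with
    | zero =>
      intro v _
      obtain ⟨n, hn⟩ := hπ z
      exact ⟨n, by simpa [nest] using hn⟩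
    | succ k ih =>
      intro v hv
      obtain ⟨n, hn⟩ := ih (fun i => v (i + 1)) (fun i => hv (i + 1))
      refine ⟨n, ?_⟩
      rw [nest, map_mul, map_pow, hn, hv 0, one_mul, ← zpow_natCast, ← zpow_mul]
      congr 1
      push_cast
      ring
  induction k generalizing v j with
  | zero => exact absurd hjk (Nat.not_lt_zero j)
  | succ k ih =>
    cases j with
    | zero =>
      obtain ⟨n, hn⟩ := key k (fun i => v (i + 1)) (fun i => hne (i + 1) (by omega))
      refine ⟨n, ?_⟩
      rw [nest, map_mul, map_pow, hn, hj, ← zpow_natCast, ← zpow_mul, ← zpow_one_add]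
      congr 1
      push_cast
      ring
    | succ j =>
      obtain ⟨n, hn⟩ := ih (fun i => v (i + 1)) j hj (fun i hi => hne (i + 1) (by omega))
        (by omega)
      refine ⟨n, ?_⟩
      rw [nest, map_mul, map_pow, hn, hne 0 (by omega), one_mul, ← zpow_natCast, ← zpow_mul]
      congr 1
      push_cast
      ring

theorem nest_congr (v w : ℕ → G) (z : G) (k : ℕ) (h : ∀ i < k, v i = w i) :
    nest v z k = nest w z k := by
  induction k generalizing v w with
  | zero => rfl
  | succ k ih =>
    rw [nest, nest, h 0 (by omega), ih _ (fun i => w (i + 1)) (fun i hi => h (i + 1) (by omega))]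

/-- the projection to the cyclic subgroup of a basis element -/
theorem exists_proj {X : Set G} (hX : IsFreeBasis X) {x : ℕ → G} (hx : ∀ i, x i ∈ X) (j : ℕ) :
    ∃ π : G →* G, π (x j) = x j ∧ (∀ y ∈ X, y ≠ x j → π y = 1) ∧ ∀ g, ∃ n : ℤ, π g = x j ^ n := by
  classical
  obtain ⟨π, hπ⟩ := hX.2 (fun y => if (y : G) = x j then x j else 1)
  have h1 : π (x j) = x j := by simpa using hπ ⟨x j, hx j⟩
  have h2 : ∀ y ∈ X, y ≠ x j → π y = 1 := by
    intro y hy hne
    simpa [hne] using hπ ⟨y, hy⟩
  refine ⟨π, h1, h2, ?_⟩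
  have h3 : Subgroup.closure X ≤ (Subgroup.zpowers (x j)).comap π := by
    rw [Subgroup.closure_le]
    intro y hy
    show π y ∈ Subgroup.zpowers (x j)
    by_cases hyj : y = x j
    · rw [hyj, h1]; exact Subgroup.mem_zpowers _
    · rw [h2 y hy hyj]; exact one_mem _
  intro g
  have h4 : g ∈ (Subgroup.zpowers (x j)).comap π := h3 (by rw [hX.1]; trivial)
  obtain ⟨n, hn⟩ := Subgroup.mem_zpowers_iff.1 (Subgroup.mem_comap.1 h4)
  exact ⟨n, hn.symm⟩

end

section Definability

variable {G : Type u} [Group G]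

attribute [local instance] grpStructure

theorem tMul {α : Type*} {t s : (α → G) → G} (ht : TermFn grp t) (hs : TermFn grp s) :
    TermFn grp (fun z : α → G => t z * s z) := by
  have h := TermFn.func (L := grp) (n := 2) (GroupFn.mul) (t := ![t, s]) (by
    intro i
    fin_cases i
    · exact ht
    · exact hs)
  exact h.congr fun z => rfl

theorem tNest {α : Type*} {v : ℕ → (α → G) → G} (hv : ∀ i, TermFn grp (v i))
    {t : (α → G) → G} (ht : TermFn grp t) (k : ℕ) :
    TermFn grp (fun z : α → G => nest (fun i => v i z) (t z) k) := by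
  induction k generalizing v with
  | zero => exact ht
  | succ k ih =>
    have h1 := ih (v := fun i => v (i + 1)) (fun i => hv (i + 1))
    refine (tMul (hv 0) (tMul h1 h1)).congr fun z => ?_
    rw [nest, pow_two]

theorem def_nest (k : ℕ) : DefPred grp (fun v : Fin (k + 1) → G =>
    ∃ z : G, v 0 = nest (fun i => if h : i < k then v ⟨i + 1, by omega⟩ else v 0) z k) := by
  refine DefPred.ex ?_
  refine DefPred.eq (TermFn.var _) (tNest (fun i => ?_) (TermFn.var _) k)
  by_cases h : i < k
  · simp only [h, dite_true]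
    exact TermFn.var _
  · simp only [h, dite_false]
    exact TermFn.var _

end Definability

/-- No torsion-free relatively free group of infinite rank is `ℵ₁`-homogeneous. -/
theorem result (G : Type u) [Group G] (htf : ∀ g : G, ∀ n : ℕ, 0 < n → g ^ n = 1 → g = 1)
    (X : Set G) (hX : IsFreeBasis X) (hinf : X.Infinite) : ¬ IsHomogeneous (ℵ_ 1) G := by
  classical
  intro hhom
  let e : ℕ ↪ X := hinf.natEmbedding
  let x : ℕ → G := fun i => e i
  have hx : ∀ i, x i ∈ X := fun i => (e i).2
  have hinj : Function.Injective x := fun i j h => e.injective (Subtype.ext h)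
  let y : ℕ → G := fun i => x i * x (i + 1) ^ (-2 : ℤ)
  have hyinj : Function.Injective y := by
    intro i j hij
    obtain ⟨σ, h1, _⟩ := exists_aut hX hx hinj (i + j + 1)
    apply hinj
    apply σ.injective
    rw [h1 i (by omega), h1 j (by omega)]
    exact hij
  let A : Set G := Set.range y
  have hidx : ∀ a : A, ∃ i, y i = a := fun a => a.2
  choose idx hidx using hidx
  let f : A → G := fun a => x (idx a)
  have hf : ∀ i, f ⟨y i, ⟨i, rfl⟩⟩ = x i := fun i => congrArg x (hyinj (hidx _))
  have hA : #A < ℵ_ 1 := by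
    have h1 : #A ≤ ℵ₀ := (Set.countable_range y).le_aleph0
    exact lt_of_le_of_lt h1 aleph0_lt_aleph_one
  have hel : IsElementary A f := by
    intro n φ a
    obtain ⟨K, hK⟩ : ∃ K, ∀ j : Fin n, idx (a j) < K :=
      ⟨(Finset.univ.sup fun j => idx (a j)) + 1, fun j =>
        Nat.lt_succ_of_le (Finset.le_sup (f := fun j => idx (a j)) (Finset.mem_univ j))⟩
    obtain ⟨σ, h1, _⟩ := exists_aut hX hx hinj K
    have h2 : (fun j => (a j : G)) = fun j => σ (f (a j)) := by
      funext j
      rw [← hidx (a j)]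
      exact (h1 _ (hK j)).symm
    rw [h2]
    exact realize_aut σ φ _
  obtain ⟨g, hg1, hg2⟩ := hhom A f hA hel (x 0)
  set d : G := g ⟨x 0, Or.inr rfl⟩ with hd
  have hgy : ∀ i, g ⟨y i, Or.inl ⟨i, rfl⟩⟩ = x i := fun i =>
    (hg1 ⟨y i, ⟨i, rfl⟩⟩).trans (hf i)
  -- the existential property of `x 0` passes to `d`
  have hdk : ∀ k, ∃ z : G, d = nest x z k := by
    intro k
    let _ := grpStructure G
    obtain ⟨φ, hφ⟩ := def_nest (G := G) k
    let a : Fin (k + 1) → ↥(A ∪ {x 0}) := fun j =>
      if h : (j : ℕ) = 0 then ⟨x 0, Or.inr rfl⟩ else ⟨y (j - 1), Or.inl ⟨j - 1, rfl⟩⟩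
    have h1 : φ.Realize (fun j => (a j : G)) := by
      rw [hφ]
      refine ⟨x k, ?_⟩
      show x 0 = nest (fun i => if h : i < k then (a ⟨i + 1, by omega⟩ : G) else (a 0 : G)) (x k) k
      refine (nest_eq x y (fun i => rfl) k).trans (nest_congr _ _ _ _ fun i hi => ?_)
      simp [a, hi]
    have h3 := (hg2 (k + 1) φ a).1 h1
    rw [hφ] at h3
    obtain ⟨z, hz⟩ := h3
    refine ⟨z, ?_⟩
    have h4 : d = nest (fun i => if h : i < k then g (a ⟨i + 1, by omega⟩) else g (a 0)) z k := hz
    refine h4.trans (nest_congr _ _ _ _ fun i hi => ?_)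
    simp only [hi, dite_true]
    rw [← hgy i]
    simp [a]
  choose π hπ1 hπ2 hπ3 using exists_proj hX hx
  -- almost all projections of `d` are trivial
  have hfin : ∀ w ∈ Subgroup.closure X, ∃ N : ℕ, ∀ j, N ≤ j → π j w = 1 := by
    intro w hw
    induction hw using Subgroup.closure_induction with
    | mem w hw =>
      by_cases h : ∃ i, x i = w
      · obtain ⟨i, rfl⟩ := h
        refine ⟨i + 1, fun j hj => hπ2 j _ hw fun h => ?_⟩
        have := hinj h
        omega
      · exact ⟨0, fun j _ => hπ2 j _ hw fun h' => h ⟨j, h'.symm⟩⟩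
    | one => exact ⟨0, fun j _ => map_one _⟩
    | mul a b _ _ ha hb =>
      obtain ⟨N, hN⟩ := ha
      obtain ⟨M, hM⟩ := hb
      exact ⟨max N M, fun j hj => by
        rw [map_mul, hN j (le_trans (le_max_left _ _) hj), hM j (le_trans (le_max_right _ _) hj),
          one_mul]⟩
    | inv a _ ha =>
      obtain ⟨N, hN⟩ := ha
      exact ⟨N, fun j hj => by rw [map_inv, hN j hj, inv_one]⟩
  obtain ⟨j, hj⟩ := hfin d (by rw [hX.1]; trivial)
  have hj1 := hj j le_rfl
  obtain ⟨z, hz⟩ := hdk (j + 1)
  obtain ⟨n, hn⟩ := nest_map (π j) (hπ3 j) x j (hπ1 j)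
    (fun i hi => hπ2 j _ (hx i) fun h => hi (hinj h)) z (j + 1) (Nat.lt_succ_self j)
  rw [← hz, hj1] at hn
  -- torsion-freeness
  have hne : ((2 : ℤ) ^ j + 2 ^ (j + 1) * n) ≠ 0 := by
    intro h0
    have h1 : (2 : ℤ) ^ j * (1 + 2 * n) = 0 := by rw [← h0]; ring
    rcases mul_eq_zero.1 h1 with h2 | h2
    · exact absurd h2 (by positivity)
    · omega
  have hx1 : x j = 1 := by
    have h5 : x j ^ ((2 : ℤ) ^ j + 2 ^ (j + 1) * n).natAbs = 1 := by
      rcases Int.natAbs_eq ((2 : ℤ) ^ j + 2 ^ (j + 1) * n) with h | h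
      · rw [← zpow_natCast, ← h, ← hn]
      · rw [h, zpow_neg, zpow_natCast] at hn
        have := congrArg (fun u => u⁻¹) hn
        simpa using this.symm
    exact htf _ _ (Int.natAbs_pos.2 hne) h5
  -- the basis has another element, so `x j = 1` is impossible
  have h6 : ∀ g : G, g = 1 := by
    intro g
    obtain ⟨φ, hφ⟩ := hX.2 (fun _ => g)
    have h7 := hφ ⟨x j, hx j⟩
    rw [← h7]
    show φ (x j) = 1
    rw [hx1, map_one]
  exact absurd (hinj ((h6 (x 0)).trans (h6 (x 1)).symm)) (by decide)

end Pool.Agent.Results.MP_735cdd_lc.NotAlephOneHomogeneous
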